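import Pool.Agent.H466.HE.SC

/-!
# Task HE-GGM (helper571 for helper466): most points have good grids
-/

set_option autoImplicit false

namespace Pool.Agent.H571.HE

open Complex MeasureTheory Set Filter Topology
open scoped ComplexConjugate
open Pool.Agent.H466.HF Pool.Agent.H466.LD Pool.Agent.H466.HP Pool.Agent.H466.HN Pool.Agent.H466.HD
open Pool.Agent.H466.HE

theorem unif_min {ι : Type} (s : Finset ι) (f : ι → ℝ) (b : ℝ) (hb : 0 < b)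
    (h : ∀ i ∈ s, 0 < f i) : ∃ c : ℝ, 0 < c ∧ c ≤ b ∧ ∀ i ∈ s, c ≤ f i := by
  classical
  induction s using Finset.induction_on with
  | empty => exact ⟨b, hb, le_rfl, fun i hi => absurd hi (Finset.notMem_empty i)⟩
  | insert a s ha ih =>
    obtain ⟨c, hc, hcb, hcs⟩ := ih fun i hi => h i (Finset.mem_insert_of_mem hi)
    refine ⟨min c (f a), lt_min hc (h a (Finset.mem_insert_self a s)),
      (min_le_left _ _).trans hcb, fun i hi => ?_⟩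
    rcases Finset.mem_insert.1 hi with rfl | hi
    · exact min_le_right _ _
    · exact (min_le_left _ _).trans (hcs i hi)

theorem unif_max {ι : Type} (s : Finset ι) (f : ι → ℝ) (b : ℝ) :
    ∃ c : ℝ, b ≤ c ∧ ∀ i ∈ s, f i ≤ c := by
  classical
  induction s using Finset.induction_on with
  | empty => exact ⟨b, le_rfl, fun i hi => absurd hi (Finset.notMem_empty i)⟩
  | insert a s ha ih =>
    obtain ⟨c, hc, hcs⟩ := ih
    refine ⟨max c (f a), hc.trans (le_max_left _ _), fun i hi => ?_⟩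
    rcases Finset.mem_insert.1 hi with rfl | hi
    · exact le_max_right _ _
    · exact (hcs i hi).trans (le_max_left _ _)

/-- the indices -/
theorem exists_idx (σ V : ℝ) (hσ : 0 < σ) : ∃ J : Finset ℤ, ∀ j : ℤ, |σ * j| ≤ V → j ∈ J := by
  refine ⟨Finset.Icc (-⌈V / σ⌉) ⌈V / σ⌉, fun j hj => ?_⟩
  rw [abs_le] at hj
  have h1 : (j : ℝ) ≤ V / σ := by
    rw [le_div_iff₀ hσ]
    linarith
  have h2 : -(V / σ) ≤ (j : ℝ) := by
    rw [← neg_div, div_le_iff₀ hσ]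
    linarith
  have h3 := Int.le_ceil (V / σ)
  rw [Finset.mem_Icc]
  constructor
  · have : (-(⌈V / σ⌉ : ℤ) : ℝ) ≤ (j : ℝ) := by linarith
    exact_mod_cast this
  · have : (j : ℝ) ≤ (⌈V / σ⌉ : ℤ) := by linarith
    exact_mod_cast this

theorem ggm (h1 : S_HBg) (h2 : S_REG) : S_GGM := by
  classical
  intro ρ σ W ε0 hρ hρ4 hσ hW hε0
  obtain ⟨J, hJ⟩ := exists_idx σ (W + 1) hσ
  obtain ⟨I1, hI1⟩ := exists_idx σ 1 hσ
  obtain ⟨Is, hI⟩ : ∃ Is : Finset ℤ, ∀ i : ℤ, i ∈ Is ↔ 0 ≤ σ * i ∧ σ * i ≤ 1 :=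
    ⟨I1.filter fun i => 0 ≤ σ * i ∧ σ * i ≤ 1, fun i => by
      rw [Finset.mem_filter]
      refine ⟨fun h => h.2, fun h => ⟨hI1 i ?_, h⟩⟩
      rw [abs_of_nonneg h.1]
      exact h.2⟩
  obtain ⟨n, hn⟩ : ∃ n : ℝ, n = (Is ×ˢ J).card + 1 := ⟨_, rfl⟩
  have hn0 : 0 < n := by
    rw [hn]
    positivity
  have hε1 : 0 < ε0 / (4 * n) := by positivity
  have hH : ∀ i ∈ Is, ∃ κ0 : ℝ, 0 < κ0 ∧ ∀ κ : ℝ, 0 < κ → κ ≤ κ0 → ∀ A1 : ℝ, 1 ≤ A1 →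
      ∃ A0 δ T0 : ℝ, 1 ≤ A0 ∧ 0 < δ ∧ 10 ≤ T0 ∧ ∀ T μ : ℝ, T0 ≤ T → 0 < μ →
      A0 ≤ μ * Real.log T ^ 2 → μ * Real.log T ≤ δ →
      volume {t : ℝ | t ∈ Icc T (2 * T) ∧ Rg T t A1 (1 / κ) κ ∧
        ∀ z : ℂ, ‖z - ((σ * i * (μ * Real.log T) : ℝ) + (t : ℂ) * I)‖ ≤ ρ * (μ * Real.log T) →
          ‖LL gk (-μ) z‖ < Gm T t μ * Real.exp (((σ * i) ^ 2 / 4 - ρ) * (μ * Real.log T ^ 2))} ≤
        ENNReal.ofReal (ε0 / (4 * n) * T) := fun i hi =>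
    h1 ρ (ε0 / (4 * n)) (σ * i) hρ hρ4 hε1 ((hI i).1 hi).1 ((hI i).1 hi).2
  choose! κf hκf0 hκf using hH
  obtain ⟨κ0, hκ0, -, hκ0f⟩ := unif_min Is κf 1 one_pos hκf0
  refine ⟨κ0, hκ0, fun κ hκ hκ0' hκ1 => ?_⟩
  obtain ⟨A1, T1, hA1, hT1, hreg⟩ := h2 (1 / κ) κ (ε0 / (4 * n))
    ((one_le_div hκ).2 hκ1) hκ hε1
  have hH2 : ∀ i ∈ Is, ∃ A0 δ T0 : ℝ, 1 ≤ A0 ∧ 0 < δ ∧ 10 ≤ T0 ∧ ∀ T μ : ℝ, T0 ≤ T → 0 < μ →
      A0 ≤ μ * Real.log T ^ 2 → μ * Real.log T ≤ δ →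
      volume {t : ℝ | t ∈ Icc T (2 * T) ∧ Rg T t A1 (1 / κ) κ ∧
        ∀ z : ℂ, ‖z - ((σ * i * (μ * Real.log T) : ℝ) + (t : ℂ) * I)‖ ≤ ρ * (μ * Real.log T) →
          ‖LL gk (-μ) z‖ < Gm T t μ * Real.exp (((σ * i) ^ 2 / 4 - ρ) * (μ * Real.log T ^ 2))} ≤
        ENNReal.ofReal (ε0 / (4 * n) * T) := fun i hi =>
    hκf i hi κ hκ (hκ0'.trans (hκ0f i hi)) A1 hA1
  choose! A0f δf T0f hA0f hδf hT0f hvol using hH2
  obtain ⟨A0, hA01, hA0⟩ := unif_max Is A0f 1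
  obtain ⟨δ, hδ, hδW, hδf'⟩ := unif_min Is δf (1 / (W + 1)) (by positivity) hδf
  obtain ⟨T0, hT01, hT0⟩ := unif_max Is T0f (max 10 T1)
  refine ⟨A1, A0, δ, T0, hA1, hA01, hδ, (le_max_left _ _).trans hT01, ?_⟩
  intro T μ hT hμ hA hd
  have hT10 : 10 ≤ T := (le_max_left _ _).trans (hT01.trans hT)
  have hTT1 : T1 ≤ T := (le_max_right _ _).trans (hT01.trans hT)
  have hlog : 0 < Real.log T := Real.log_pos (by linarith)
  obtain ⟨Δ, hΔ⟩ : ∃ Δ : ℝ, Δ = μ * Real.log T := ⟨_, rfl⟩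
  have hΔ0 : 0 < Δ := by
    rw [hΔ]
    positivity
  have hΔ1 : (W + 1) * Δ ≤ 1 := by
    have h3 : Δ ≤ 1 / (W + 1) := by
      rw [hΔ]
      exact hd.trans hδW
    rw [le_div_iff₀ (by linarith)] at h3
    linarith
  obtain ⟨B0, hB0⟩ : ∃ B0 : Set ℝ, B0 = {t : ℝ | t ∈ Icc T (2 * T) ∧
      ¬ (CF t (A1 / Real.log T) (1 / κ) ∧
      ∀ z ∈ Kt t (A1 / Real.log T) 4 (1 / κ), ‖P z - (Real.log T / 2 : ℝ)‖ ≤ κ * Real.log T)} :=
    ⟨_, rfl⟩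
  obtain ⟨Bf, hBf⟩ : ∃ Bf : ℤ → Set ℝ, ∀ i, Bf i = {t : ℝ | t ∈ Icc T (2 * T) ∧
      Rg T t A1 (1 / κ) κ ∧
        ∀ z : ℂ, ‖z - ((σ * i * (μ * Real.log T) : ℝ) + (t : ℂ) * I)‖ ≤ ρ * (μ * Real.log T) →
          ‖LL gk (-μ) z‖ < Gm T t μ *
            Real.exp (((σ * i) ^ 2 / 4 - ρ) * (μ * Real.log T ^ 2))} := ⟨_, fun i => rfl⟩
  have hvB0 : volume B0 ≤ ENNReal.ofReal (ε0 / (4 * n) * T) := by
    rw [hB0]
    exact hreg T hTT1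
  have hvBf : ∀ i ∈ Is, volume (Bf i) ≤ ENNReal.ofReal (ε0 / (4 * n) * T) := by
    intro i hi
    rw [hBf]
    exact hvol i hi T μ ((hT0 i hi).trans hT) hμ ((hA0 i hi).trans hA) (hd.trans (hδf' i hi))
  have hsub : {t : ℝ | t ∈ Icc (T + 1) (2 * T - 1) ∧ ¬ GG ρ σ W κ A1 T t μ} ⊆
      ⋃ q ∈ Is ×ˢ J, (fun t : ℝ => t + σ * q.2 * Δ) ⁻¹' (B0 ∪ Bf q.1) := by
    rintro t ⟨ht, hG⟩
    have hG' : ∃ i j : ℤ, 0 ≤ σ * i ∧ σ * i ≤ 1 ∧ |σ * j| ≤ W + 1 ∧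
        ¬ (Rg T (t + σ * j * (μ * Real.log T)) A1 (1 / κ) κ ∧
        ∃ z : ℂ, ‖z - ((σ * i * (μ * Real.log T) : ℝ) +
            ((t + σ * j * (μ * Real.log T) : ℝ) : ℂ) * I)‖ ≤ ρ * (μ * Real.log T) ∧
          Gm T (t + σ * j * (μ * Real.log T)) μ *
            Real.exp (((σ * i) ^ 2 / 4 - ρ) * (μ * Real.log T ^ 2)) ≤ ‖LL gk (-μ) z‖) := by
      by_contra hc
      apply hG
      intro i j h3 h4 h5
      by_contra h6
      exact hc ⟨i, j, h3, h4, h5, h6⟩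
    obtain ⟨i, j, h3, h4, h5, h6⟩ := hG'
    have hq : (i, j) ∈ Is ×ˢ J := Finset.mem_product.2 ⟨(hI i).2 ⟨h3, h4⟩, hJ j h5⟩
    refine mem_iUnion₂.2 ⟨(i, j), hq, ?_⟩
    have h7 : |σ * j * Δ| ≤ 1 := by
      rw [abs_mul, abs_of_pos hΔ0]
      exact (mul_le_mul_of_nonneg_right h5 hΔ0.le).trans hΔ1
    rw [abs_le] at h7
    have h8 : t + σ * j * Δ ∈ Icc T (2 * T) := ⟨by linarith [ht.1, h7.1], by linarith [ht.2, h7.2]⟩
    rw [← hΔ] at h6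
    show t + σ * j * Δ ∈ B0 ∪ Bf i
    by_cases h9 : Rg T (t + σ * j * Δ) A1 (1 / κ) κ
    · right
      rw [hBf, ← hΔ]
      refine ⟨h8, h9, fun z hz => ?_⟩
      by_contra h10
      exact h6 ⟨h9, z, hz, not_lt.1 h10⟩
    · left
      rw [hB0]
      exact ⟨h8, fun h10 => h9 ⟨h10.1, h10.2⟩⟩
  have hT0' : 0 ≤ T := by linarith
  calc volume {t : ℝ | t ∈ Icc (T + 1) (2 * T - 1) ∧ ¬ GG ρ σ W κ A1 T t μ}
      ≤ volume (⋃ q ∈ Is ×ˢ J, (fun t : ℝ => t + σ * q.2 * Δ) ⁻¹' (B0 ∪ Bf q.1)) :=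
        measure_mono hsub
    _ ≤ ∑ q ∈ Is ×ˢ J, volume ((fun t : ℝ => t + σ * q.2 * Δ) ⁻¹' (B0 ∪ Bf q.1)) :=
        measure_biUnion_finset_le _ _
    _ ≤ ∑ _q ∈ Is ×ˢ J, ENNReal.ofReal (2 * (ε0 / (4 * n) * T)) := by
        refine Finset.sum_le_sum fun q hq => ?_
        rw [measure_preimage_add_right]
        refine (measure_union_le _ _).trans ?_
        rw [two_mul, ENNReal.ofReal_add (by positivity) (by positivity)]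
        exact add_le_add hvB0 (hvBf q.1 (Finset.mem_product.1 hq).1)
    _ = ENNReal.ofReal ((Is ×ˢ J).card * (2 * (ε0 / (4 * n) * T))) := by
        have h3 := ENNReal.ofReal_mul (p := ((Is ×ˢ J).card : ℝ)) (q := 2 * (ε0 / (4 * n) * T))
          (Nat.cast_nonneg _)
        rw [h3, ENNReal.ofReal_natCast, Finset.sum_const, nsmul_eq_mul]
    _ ≤ ENNReal.ofReal (ε0 * T) := by
        apply ENNReal.ofReal_le_ofReal
        have h3 : ((Is ×ˢ J).card : ℝ) ≤ n := by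
          rw [hn]
          linarith
        have h4 : ((Is ×ˢ J).card : ℝ) * (2 * (ε0 / (4 * n) * T)) ≤ n * (2 * (ε0 / (4 * n) * T)) :=
          mul_le_mul_of_nonneg_right h3 (by positivity)
        refine h4.trans ?_
        have h5 : n * (2 * (ε0 / (4 * n) * T)) = ε0 * T / 2 := by
          field_simp
          ring
        rw [h5]
        have : 0 ≤ ε0 * T := by positivity
        linarith

end Pool.Agent.H571.HE
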